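import Pool.Agent.H751.PC.Helly

/-!
# Groups which act properly, but not cocompactly, on hereditary Helly complexes

For a graph `S`, `tri S` is the two-skeleton of its flag complex; `(tri S).SC`: the flag complex is
simply connected. `HCH S`: the graph is hereditary clique-Helly (the pairwise intersecting cliques
of every induced subgraph have a common vertex), in the form of the local criterion of Prisner: in
every triangle `a, b, c` there is an edge all of whose common neighbours are equal or adjacent to
the third vertex. A locally finite graph with a simply connected flag complex and this property is a
Helly graph (balls have the Helly property), and every dimension of the flag complex is possible.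
`HellyGroup H`: the group `H` acts with finite stabilizers and finitely many orbits on a locally
finite graph of this kind; then it is a Helly group.

`X : Cx V` is a polygonal complex, `X.C 4` and `X.T 4` are the small cancellation conditions,
`Proper G X`: `G` acts on `X` with finite vertex stabilizers, `FourFour H`: the group `H` acts
properly and cocompactly on a simply connected `C(4)`-`T(4)` complex, so that it is a Helly group by
Chalopin, Chepoi, Genevois, Hirai and Osajda. `DirColim D G`: the group `G` is the colimit of a
directed system of groups with the property `D`.

(1) Every group which acts with finite stabilizers on a locally finite hereditary clique-Helly graph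
with a simply connected flag complex, with arbitrarily many orbits, is the colimit of a directed
system of groups `H` with `HellyGroup H`.

(2) Every group which acts with finite stabilizers on a simply connected `C(4)`-`T(4)` complex, with
arbitrarily many orbits and not necessarily locally finite, is the colimit of a directed system of
groups `H` with `FourFour H`.

Helly groups satisfy the K- and L-theoretic Farrell–Jones conjecture with coefficients, and the
groups which satisfy it are closed under directed colimits.

Outline of the proof. For a finite set `K` of vertices let `Y_K` be the full subcomplex spanned by
the orbits of `K`. The group of all lifts of elements of `G` to the universal covering of the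
component of the base point of `Y_K` acts on it properly and cocompactly, and `G` is the directed
colimit of these groups. Neighbours of a vertex of the covering are adjacent if and only if their
images are adjacent. Hence a triangle of the covering which violates the criterion of Prisner maps
to such a triangle.
-/

set_option autoImplicit false

namespace Pool.Agent.Results.MP_9d1ffa_al.HereditaryHellyActions

open Pool.Agent.H751.PC

theorem result :
    -- (1) hereditary clique-Helly graphs
    (∀ (G V : Type) [Group G] [MulAction G V] [Nonempty V] (S : SimpleGraph V), (tri S).SC →
      HCH S → (∀ (g : G) a b, S.Adj a b → S.Adj (g • a) (g • b)) →
      (∀ v, (S.neighborSet v).Finite) → (∀ v : V, Finite (MulAction.stabilizer G v)) →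
      DirColim (fun H _ => HellyGroup H) G) ∧
    -- (2) `C(4)`-`T(4)` complexes
    (∀ (G V : Type) [Group G] [MulAction G V] [Nonempty V] (X : Cx V), X.SC → X.C 4 → X.T 4 →
      Proper G X → DirColim (fun H _ => FourFour H) G) := by
  refine ⟨?_, ?_⟩
  · intro G V _ _ _ S h1 h2 h3 h4 h5
    exact hch_main S h1 h2 h3 h4 h5
  · intro G V _ _ _ X h1 h2 h3 h4
    exact fourfour_main X h1 h2 h3 h4

end Pool.Agent.Results.MP_9d1ffa_al.HereditaryHellyActions
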