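import Pool.Agent.H417.PL.Alg2
import Pool.Agent.H417.PL.FtyL
import Pool.Graph.R_pool_sql_team_seeded_620a6dc7.H694.LCl.PT

/-!
# Rational injectivity of the L-theory assembly map for groups of piecewise linear homeomorphisms
# with irrational slopes

`A ≠ 0` is an additive subgroup of `ℝ`, `P` is a group of positive real numbers with `P · A ⊆ A`, and
`I` is an interval. `G(I; A, P)` is the group of Bieri and Strebel: the piecewise linear
homeomorphisms `g` of `ℝ` with support in `I`, with finitely many breaks, all of them in `A`, with
slopes in `P`, and with `g(A) = A`. If `P` contains a rational number different from `1`, they are the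
subject of `MP_98022b_gt.PiecewiseLinearGroups`. Here we treat irrational slopes. We assume that `P`
contains an irrational number `p` with one of the following two properties.

(a) `p` is algebraic and its norm over `ℚ` (up to sign the constant coefficient of its minimal
polynomial) is different from `1` and `-1`. There is no condition on `A`.

(b) `A` has finite rank, and no alternating form `A^q → ℚ`, `q ≥ 1`, except for zero, is invariant under
the multiplication by `p`. (If `A ⊆ ℚ(p)` this says that no product of `q ≥ 1` different conjugates
of `p` is equal to `1`.)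

An example for (a) is `A = ℤ[1/√2]`, `P = ⟨√2⟩`. Examples for (b) are the metallic means
`p = (n + √(n² + 4)) / 2`, `A = ℤ + ℤ p`, `P = ⟨p⟩`. For `n = 1` and `I = [0, 1]` this is the irrational
slope Thompson group `F_τ` of Cleary. These groups are torsion free, and if `I` has more than one point
they contain free abelian groups of infinite rank. It is not known whether they satisfy the
Farrell-Jones conjecture.

`R` is a ring with involution, for example `ℤ`, `ε = ± 1`, `lqr R ε` is the functor
`G ↦ ℚ ⊗ L₀(R[G]; ε)` (nonsingular `ε`-quadratic forms on finitely generated projective modules over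
`R[G]` modulo hyperbolic ones; the choice of the decoration does not matter rationally), and
`hq j` is the functor `G ↦ H_j(G; ℚ)`. `DetL R ε G` says: for every group `T` and every family of
transformations `α_{j,i} : H_j(-; ℚ) → ℚ ⊗ L₀(R[- × T]; ε)`, `i ∈ I_j`, natural in the group, such that
for each `j` the `α_{j,i}`, `i ∈ I_j`, are linearly independent on the group `ℤ^j`, the sum of all the
`α_{j,i}` is injective on `G`. With `T = ℤ^k` this covers the rational assembly maps with values in the
L-groups of `R[G]` of all degrees. So, for every connected aspherical CW complex `X` whose fundamental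
group is one of these groups, the assembly map `H_n(X; L(ℤ)) → L_n(ℤ[π₁ X])` is rationally injective
for all `n`, and the same holds for all rings with involution.

Outline of the proof. For `a` in `A` and `p` in `P` let `g_{a,p}` be the map which is equal to `g`
before `a` and affine with slope `p` after `a`. The two maps `g ↦ g_{a,p}`, `p` the right and the left
derivative of `g` at `a`, differ only at the finitely many breaks of `g`; they define transfers in
rational homology, whose sum telescopes. This gives the injectivity for `G(I; A, P)`, provided that the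
projections of the affine groups `A ⋊ P` and `(P-1)A ⋊ P` to `P` induce isomorphisms in rational
homology (see `MP_98022b_gt.PiecewiseLinearGroups`). For this it is sufficient that for every `q ≥ 1` some
polynomial `g` with `g(1) ≠ 0` annihilates the action of `p` on `H_q(A; ℚ)`. The homology is detected
by the determinants of `q` functionals `A → ℚ`. In case (b) let `g` be the minimal polynomial of `p`
on the space of the alternating forms; `g(1) ≠ 0`, as `1` is not an eigenvalue. In case (a) the
sequence `k ↦ φ(p^k x)` is a combination of the sequences `k ↦ λ^k`, `λ` the conjugates of `p`, for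
every functional `φ` and every `x`; let `g` be the product of the minimal polynomials of all the
products `λ₁ ⋯ λ_q` of `q` conjugates. No such product is `1`, as its norm is a nontrivial power of
the norm of `p` up to sign.
-/

set_option autoImplicit false

namespace Pool.Agent.Results.MP_9d1ffa_al.IrrationalSlopes

open Pool.Agent.H694.LCl

/-- **The group `G(I; A, P)` of Bieri and Strebel**: the group (under composition) of the order
preserving bijections `g` of the real line which map `A` onto itself, are trivial outside of `I`, and
for which there is a finite subset `F` of `A` such that on every interval `[x, y]` which has no element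
of `F` in its interior `g` is affine with a slope in `P`. -/
def BieriStrebel (A : AddSubgroup ℝ) (P : Subgroup ℝˣ) (I : Set ℝ) : Subgroup (ℝ ≃o ℝ) where
  carrier := {g | (∀ x, g x ∈ A ↔ x ∈ A) ∧ (∀ x, x ∉ I → g x = x) ∧
    ∃ F : Finset ℝ, (∀ z ∈ F, z ∈ A) ∧ ∀ x y, x < y → (∀ z ∈ F, z ≤ x ∨ y ≤ z) →
      ∃ p : P, ∀ z, x ≤ z → z ≤ y → g z = g x + ((p : ℝˣ) : ℝ) * (z - x)}
  one_mem' := (Pool.Agent.H417.PL.BS A P I).one_mem'
  mul_mem' := (Pool.Agent.H417.PL.BS A P I).mul_mem'
  inv_mem' := (Pool.Agent.H417.PL.BS A P I).inv_mem'

theorem result (R : Type) [Ring R] [StarRing R] (ε : ℤˣ) :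
    (∀ (A : AddSubgroup ℝ) (P : Subgroup ℝˣ) (_ : A ≠ ⊥) (_ : ∀ p ∈ P, 0 < (p : ℝ))
      (hmul : ∀ p ∈ P, ∀ a ∈ A, (p : ℝ) * a ∈ A) (p : ℝˣ) (hp : p ∈ P) (_ : Irrational (p : ℝ))
      (_ : (IsAlgebraic ℚ (p : ℝ) ∧ |(minpoly ℚ (p : ℝ)).coeff 0| ≠ 1) ∨
        ((∃ V : Submodule ℚ ℝ, FiniteDimensional ℚ V ∧ ∀ a ∈ A, a ∈ V) ∧
          ∀ (q : ℕ) (ω : A [⋀^Fin (q + 1)]→ₗ[ℤ] ℚ),
            (∀ x : Fin (q + 1) → A, ω (fun i => ⟨(p : ℝ) * x i, hmul p hp _ (x i).2⟩) = ω x) →
              ω = 0))
      (I : Set ℝ) (_ : I.OrdConnected), DetL R ε (BieriStrebel A P I)) ∧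
    (∀ (n : ℕ) (_ : n ≠ 0) (p : ℝˣ) (_ : 0 < (p : ℝ)) (_ : (p : ℝ) ^ 2 = n * p + 1)
      (I : Set ℝ) (_ : I.OrdConnected),
      DetL R ε (BieriStrebel (AddSubgroup.closure {1, (p : ℝ)}) (Subgroup.zpowers p) I)) := by
  refine ⟨fun A P hA hpos hmul p hp hirr hs I hI => ?_, fun n hn p h0 hp I hI => ?_⟩
  · exact Pool.Agent.H417.PL.det_irr (hasPT_lqr R ε) (Pool.Agent.H417.PL.fty_L R ε)
      A hA P hpos hmul p hp (fun h => hirr ⟨1, by rw [h]; simp⟩) hs I hI
  · exact Pool.Agent.H417.PL.det_metal (hasPT_lqr R ε) (Pool.Agent.H417.PL.fty_L R ε)
      n (by exact_mod_cast hn) p h0 (by exact_mod_cast hp) I hI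

end Pool.Agent.Results.MP_9d1ffa_al.IrrationalSlopes
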